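import Pool.Agent.W688.HT.Fin

/-! # Project Z, job Z-REM: bound of `R_d` on the real axis for `d ≥ N / 2` -/

set_option autoImplicit false

namespace Pool.Agent.TH653.Z

open Filter Finset Topology EvenVol EvenVol.LobIneq
open Pool.Agent.W711.HT
open scoped Real

lemma bb_nonpos {δ x : ℝ} (h0 : 1 / 2 ≤ δ) (h1 : δ ≤ 1) (hx : |x| ≤ π) : bb δ x ≤ 0 := by
  have hπ := Real.pi_pos
  have hx' := abs_le.1 hx
  rw [Pool.Agent.W688.HT.bb_FF]
  apply div_nonpos_of_nonpos_of_nonneg _ hπ.le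
  have ha0 : 0 ≤ π - π * δ := by nlinarith
  have ha1 : π - π * δ ≤ π / 2 := by nlinarith
  rcases le_total (x / 2 + π / 2) (π / 2) with h | h
  · exact FF_nonpos ha0 ha1 (by linarith) h
  · rw [← FF_symm]
    exact FF_nonpos ha0 ha1 (by linarith) (by linarith)

theorem half : ∀ ε' : ℝ, 0 < ε' → ∃ τ : ℝ, 0 < τ ∧ ∀ᶠ N : ℕ in atTop, ∀ d : ℕ,
  (N : ℝ) / 2 ≤ d → d < N → ∀ x y : ℝ, |x| ≤ π → |y| ≤ τ →
    ‖Rp N d (x + y * Complex.I)‖ ≤ Sd N d ^ 2 * Real.exp (ε' * N) := by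
  intro ε' hε
  obtain ⟨τ, hτ, h⟩ := Pool.Agent.W688.HT.b0 ε' hε
  refine ⟨τ, hτ, ?_⟩
  filter_upwards [h] with N hN d hd1 hd2 x y hx hy
  refine (hN d hd2 x y hx hy).trans ?_
  have hN0 : (0 : ℝ) < N := by
    have : 0 < N := by omega
    exact_mod_cast this
  have h1 : bb ((d : ℝ) / N) x ≤ 0 := by
    apply bb_nonpos _ _ hx
    · rw [le_div_iff₀ hN0]; linarith
    · rw [div_le_one hN0]; exact_mod_cast hd2.le
  refine mul_le_mul_of_nonneg_left (Real.exp_le_exp.2 ?_) (sq_nonneg _)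
  have h2 : (N : ℝ) * bb ((d : ℝ) / N) x ≤ 0 := mul_nonpos_of_nonneg_of_nonpos hN0.le h1
  linarith

end Pool.Agent.TH653.Z
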