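import Pool.Agent.W349.HT.Gdl
import Pool.Agent.W85.HT.LapInt
import Pool.Agent.TH653.Z.Half

/-! # Project Z, job Z-REM: the remaining terms `d ≥ (1 / 2 + ε) N` -/

set_option autoImplicit false

namespace Pool.Agent.TH653.Z

open Filter Finset Topology MeasureTheory
open Pool.Agent.W711.HT
open scoped Real

/-- the product of the factors with `d ≤ j < N` -/
noncomputable def QQ (N d : ℕ) (z : ℂ) : ℂ :=
  ∏ j ∈ Ico d N, (2 * Complex.cos z + 2 * (Real.cos (phi N j) : ℂ))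

lemma RR_eq {N d : ℕ} (hN : 0 < N) (hd : d ≤ N) (z : ℂ) :
    4 * Complex.cos (N * (z + π) / 2) ^ 2 = (-1) ^ N * (Rp N d z * QQ N d z) := by
  rw [← Pool.Agent.W709.VC.prod_phi hN]
  unfold Pool.Agent.W709.VC.RR Rp QQ
  rw [Finset.range_eq_Ico, Finset.range_eq_Ico, Finset.prod_Ico_consecutive _ (Nat.zero_le d) hd]
  have : ∀ j ∈ Ico 0 N, (-2 * Complex.cos z - 2 * (Real.cos (Pool.Agent.W709.VC.phi N j) : ℂ)) =
      (-1) * (2 * Complex.cos z + 2 * (Real.cos (phi N j) : ℂ)) := by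
    intro j _
    have : Pool.Agent.W709.VC.phi N j = phi N j := rfl
    rw [this]; ring
  rw [Finset.prod_congr rfl this, Finset.prod_mul_distrib, Finset.prod_const]
  simp

lemma kr_cont_of {N : ℕ} {f : ℝ → ℂ} (hf : Continuous f)
    (hc : ∀ t, Complex.cos (N * (f t + π) / 2) ≠ 0) : Continuous fun t => kr N (f t) := by
  unfold kr
  refine Continuous.div ?_ ?_ ?_
  · exact continuous_const.mul (Complex.continuous_sin.comp hf)
  · exact continuous_const.mul ((Complex.continuous_cos.comp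
      ((continuous_const.mul (hf.add continuous_const)).div_const 2)).pow 2)
  · intro t
    exact mul_ne_zero (by norm_num) (pow_ne_zero 2 (hc t))

lemma Rp_diff (N d : ℕ) : Differentiable ℂ (Rp N d) := by
  unfold Rp
  intro z
  refine DifferentiableAt.fun_finsetProd fun j _ => ?_
  exact (((Complex.differentiable_cos z).const_mul 2).add_const _)

lemma Rp_cont (N d : ℕ) : Continuous (Rp N d) := (Rp_diff N d).continuous

lemma kr_per (N : ℕ) (z : ℂ) : kr N (z + 2 * π) = kr N z := by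
  unfold kr
  have h1 : Complex.cos (N * (z + 2 * π + π) / 2) ^ 2 = Complex.cos (N * (z + π) / 2) ^ 2 := by
    rw [Complex.cos_sq, Complex.cos_sq]
    have h2 : 2 * ((N : ℂ) * (z + 2 * π + π) / 2) = 2 * (N * (z + π) / 2) + (N : ℕ) * (2 * π) := by
      ring
    rw [h2, Complex.cos_add_nat_mul_two_pi]
  rw [h1, Complex.sin_add_two_pi]

lemma Rp_per (N d : ℕ) (z : ℂ) : Rp N d (z + 2 * π) = Rp N d z := by
  unfold Rp
  simp only [Complex.cos_add_two_pi]

/-- the analytic extension of `P R_d kr` -/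
noncomputable def FE (P : ℂ → ℂ) (N d : ℕ) (z : ℂ) : ℂ :=
  (-1) ^ N * (P z * (2 * Complex.sin z)) / QQ N d z

lemma FE_eq (P : ℂ → ℂ) {N d : ℕ} (hN : 0 < N) (hd : d ≤ N) {z : ℂ}
    (hz : Complex.cos (N * (z + π) / 2) ≠ 0) : P z * Rp N d z * kr N z = FE P N d z := by
  have h1 := RR_eq hN hd z
  have h2 : 4 * Complex.cos (N * (z + π) / 2) ^ 2 ≠ 0 := mul_ne_zero (by norm_num) (pow_ne_zero 2 hz)
  have h3 : ((-1 : ℂ) ^ N) * ((-1 : ℂ) ^ N) = 1 := by
    rw [← mul_pow]; norm_num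
  have h4 : (-1 : ℂ) ^ N ≠ 0 := by
    intro h; rw [h] at h3; simp at h3
  unfold kr FE
  rw [h1] at h2 ⊢
  have h5 : Rp N d z ≠ 0 := fun h => h2 (by rw [h]; ring)
  have h6 : QQ N d z ≠ 0 := fun h => h2 (by rw [h]; ring)
  field_simp
  linear_combination (-(P z * Complex.sin z)) * h3

lemma QQ_even (N d : ℕ) (z : ℂ) : QQ N d (-z) = QQ N d z := by
  unfold QQ
  simp only [Complex.cos_neg]

lemma FE_odd {P : ℂ → ℂ} (hP : ∀ z, P (-z) = P z) (N d : ℕ) (z : ℂ) :
    FE P N d (-z) = -FE P N d z := by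
  unfold FE
  rw [QQ_even, hP, Complex.sin_neg]
  ring

lemma QQ_ne {N d : ℕ} {ε a : ℝ} (hd : (1 / 2 + ε) * N ≤ d) (ha : a < 2 * π * ε) (haπ : a < π) {z : ℂ} (hz : |z.re| ≤ a) : QQ N d z ≠ 0 := by
  have hπ := Real.pi_pos
  unfold QQ
  rw [Finset.prod_ne_zero_iff]
  intro j hj h0
  rw [Finset.mem_Ico] at hj
  have hN : (0 : ℝ) < N := by
    have : 0 < N := by omega
    exact_mod_cast this
  have hj1 : (d : ℝ) ≤ j := by exact_mod_cast hj.1
  have hj2 : (j : ℝ) + 1 ≤ N := by exact_mod_cast hj.2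
  set θ : ℝ := phi N j - π with hθ
  have t1 : 2 * π * ε ≤ θ := by
    rw [hθ]; unfold phi
    rw [le_sub_iff_add_le, le_div_iff₀ hN]
    have : (1 / 2 + ε) * N ≤ j := hd.trans hj1
    nlinarith
  have t2 : θ < π := by
    rw [hθ]; unfold phi
    rw [sub_lt_iff_lt_add, div_lt_iff₀ hN]
    nlinarith
  have hcos : Complex.cos z = Complex.cos (θ : ℂ) := by
    rw [hθ]
    push_cast
    rw [Complex.cos_sub_pi]
    have : (Real.cos (phi N j) : ℂ) = Complex.cos (phi N j : ℂ) := Complex.ofReal_cos _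
    rw [← this]
    linear_combination h0 / 2
  rw [Complex.cos_eq_cos_iff] at hcos
  obtain ⟨k, hk⟩ := hcos
  have hzr := abs_le.1 hz
  have key : ∀ s : ℝ, |s| ≤ a → θ = 2 * k * π + s → False := by
    intro s hs he
    have hs' := abs_le.1 hs
    rcases lt_trichotomy k 0 with hk0 | hk0 | hk0
    · have : (k : ℝ) ≤ -1 := by exact_mod_cast Int.le_sub_one_of_lt hk0
      nlinarith
    · rw [hk0] at he
      simp at he
      linarith
    · have : (1 : ℝ) ≤ k := by exact_mod_cast hk0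
      nlinarith
  rcases hk with h | h
  · have h1 := congrArg Complex.re h
    simp at h1
    exact key z.re hz (by linarith)
  · have h1 := congrArg Complex.re h
    simp at h1
    exact key (-z.re) (by rw [abs_neg]; exact hz) (by linarith)

lemma QQ_diff (N d : ℕ) : Differentiable ℂ (QQ N d) := by
  unfold QQ
  intro z
  refine DifferentiableAt.fun_finsetProd fun j _ => ?_
  exact (((Complex.differentiable_cos z).const_mul 2).add_const _)

lemma mid {P : ℂ → ℂ} (hPd : Differentiable ℂ P) (hPe : ∀ z, P (-z) = P z) {N d : ℕ}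
    {ε a h : ℝ} (hε : 0 < ε) (hd : (1 / 2 + ε) * N ≤ d) (ha0 : 0 ≤ a) (ha : a < 2 * π * ε)
    (haπ : a < π) (hh : 0 ≤ h) :
    (∫ x in (-a)..a, FE P N d (x + h * Complex.I)) =
      Complex.I * ((∫ y in (0:ℝ)..h, FE P N d (a + y * Complex.I)) -
        ∫ y in (0:ℝ)..h, FE P N d (-a + y * Complex.I)) := by
  have hdiff : DifferentiableOn ℂ (FE P N d) (Set.uIcc (-a) a ×ℂ Set.uIcc 0 h) := by
    intro z hz
    have hz1 : |z.re| ≤ a := by
      have := hz.1
      rw [Set.mem_preimage, Set.uIcc_of_le (by linarith)] at this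
      exact abs_le.2 ⟨this.1, this.2⟩
    unfold FE
    apply DifferentiableAt.differentiableWithinAt
    apply DifferentiableAt.fun_div
    · exact ((hPd z).mul ((Complex.differentiable_sin z).const_mul 2)).const_mul _
    · exact QQ_diff N d z
    · exact QQ_ne hd ha haπ hz1
  have h1 := Complex.integral_boundary_rect_eq_zero_of_differentiableOn (FE P N d)
    (((-a : ℝ) : ℂ)) ((a : ℂ) + h * Complex.I) (by simpa using hdiff)
  simp only [Complex.ofReal_re, Complex.ofReal_im, Complex.add_re, Complex.add_im, Complex.mul_re,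
    Complex.mul_im, Complex.I_re, Complex.I_im, mul_zero, mul_one, zero_mul, sub_zero, add_zero,
    zero_add, smul_eq_mul, Complex.ofReal_zero] at h1
  have h2 : (∫ x in (-a)..a, FE P N d (x : ℂ)) = 0 := by
    have h3 := intervalIntegral.integral_comp_neg (a := -a) (b := a)
      (fun x : ℝ => FE P N d (x : ℂ))
    rw [neg_neg] at h3
    have h4 : (∫ x in (-a)..a, FE P N d (((-x : ℝ) : ℂ))) =
        -∫ x in (-a)..a, FE P N d (x : ℂ) := by
      rw [← intervalIntegral.integral_neg]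
      apply intervalIntegral.integral_congr
      intro x _
      show FE P N d (((-x : ℝ) : ℂ)) = -FE P N d (x : ℂ)
      rw [← FE_odd hPe]
      push_cast
      rfl
    rw [h4] at h3
    have h5 : (2 : ℂ) * (∫ x in (-a)..a, FE P N d (x : ℂ)) = 0 := by linear_combination -h3
    simpa using h5
  rw [h2] at h1
  push_cast at h1
  linear_combination -h1

lemma cos_norm_sq (u v : ℝ) :
    ‖Complex.cos (u + v * Complex.I)‖ ^ 2 = Real.cos u ^ 2 + Real.sinh v ^ 2 := by
  rw [Complex.cos_add_mul_I, ← Complex.ofReal_cos, ← Complex.ofReal_cosh, ← Complex.ofReal_sin,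
    ← Complex.ofReal_sinh, ← Complex.ofReal_mul, ← Complex.ofReal_mul, Complex.sq_norm,
    Complex.normSq_apply]
  simp only [Complex.sub_re, Complex.sub_im, Complex.ofReal_re, Complex.ofReal_im, Complex.mul_re,
    Complex.mul_im, Complex.I_re, Complex.I_im]
  have h1 := Real.cosh_sq v
  have h2 := Real.sin_sq_add_cos_sq u
  linear_combination (Real.cos u) ^ 2 * h1 + (Real.sinh v) ^ 2 * h2

lemma kr_le {N : ℕ} {z : ℂ} {m : ℝ} (hm : 0 < m)
    (h : m ≤ ‖Complex.cos (N * (z + π) / 2)‖ ^ 2) (him : |z.im| ≤ 1) :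
    ‖kr N z‖ ≤ Real.exp 1 / (2 * m) := by
  unfold kr
  rw [norm_div, norm_mul, norm_mul, norm_pow, Complex.norm_ofNat, Complex.norm_ofNat]
  have h1 : ‖Complex.sin z‖ ≤ Real.exp 1 :=
    (Pool.Agent.W85.HT.norm_sin_le z).trans (Real.exp_le_exp.2 him)
  calc 2 * ‖Complex.sin z‖ / (4 * ‖Complex.cos (N * (z + π) / 2)‖ ^ 2)
      ≤ 2 * Real.exp 1 / (4 * m) := by gcongr
    _ = Real.exp 1 / (2 * m) := by
        field_simp
        ring

lemma arg_eq (N : ℕ) (x y : ℝ) : ((N : ℂ) * ((x + y * Complex.I) + π) / 2) =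
    ((N * (x + π) / 2 : ℝ) : ℂ) + ((N * y / 2 : ℝ) : ℂ) * Complex.I := by
  push_cast
  ring

set_option maxHeartbeats 1000000 in
theorem rem0 {ε ε' x₀ : ℝ} (hε : 0 < ε) (hε1 : ε < 1 / 2) (hε' : 0 < ε') (hx0 : 0 < x₀)
    (hx1 : x₀ < 2 * π * ε) :
  ∀ᶠ N : ℕ in atTop, ∀ d : ℕ, (1 / 2 + ε) * N ≤ d → d < N → ∀ (P : ℂ → ℂ) (B : ℝ),
    Differentiable ℂ P → (∀ z, P (-z) = P z) → (∀ z, P (z + 2 * π) = P z) →
    (∀ x y : ℝ, x₀ ≤ |x| → |x| ≤ π → 0 ≤ y → y ≤ 1 / N → ‖P (x + y * Complex.I)‖ ≤ B) →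
    ‖upp (1 / N) fun φ => P φ * Rp N d φ * kr N φ‖ ≤ B * (Sd N d ^ 2 * Real.exp (ε' * N)) := by
  have hπ := Real.pi_pos
  have hπ4 := Real.pi_lt_d2
  obtain ⟨τ, hτ, hhalf⟩ := half (ε' / 2) (by positivity)
  have e1 : ∀ᶠ N : ℕ in atTop, (2 * π / (2 * π * ε - x₀) : ℝ) < N :=
    (tendsto_natCast_atTop_atTop (R := ℝ)).eventually_gt_atTop _
  have e2 : ∀ᶠ N : ℕ in atTop, (1 / τ : ℝ) < N :=
    (tendsto_natCast_atTop_atTop (R := ℝ)).eventually_gt_atTop _
  have e3 : ∀ᶠ N : ℕ in atTop, (50 : ℝ) ≤ Real.exp (ε' / 2 * N) :=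
    (Real.tendsto_exp_atTop.comp (Tendsto.const_mul_atTop (by positivity : (0:ℝ) < ε' / 2)
      tendsto_natCast_atTop_atTop)).eventually_ge_atTop 50
  filter_upwards [hhalf, e1, e2, e3, eventually_gt_atTop 0] with N hN1 hN2 hN3 hN4 hN0
  intro d hd1 hd2 P B hPd hPe hPp hPB
  have hNR : (0 : ℝ) < N := by exact_mod_cast hN0
  obtain ⟨h, hh⟩ : ∃ h : ℝ, h = 1 / N := ⟨_, rfl⟩
  have hh0 : 0 < h := by rw [hh]; positivity
  have hh1 : h ≤ 1 := by rw [hh, div_le_one hNR]; exact_mod_cast hN0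
  have hhτ : h ≤ τ := by
    rw [hh, div_le_iff₀ hNR]
    rw [div_lt_iff₀ hτ] at hN3
    linarith
  obtain ⟨a, ha0, ha1, m, ham⟩ : ∃ a : ℝ, x₀ ≤ a ∧ a < 2 * π * ε ∧
      ∃ m : ℤ, (N : ℝ) * (a + π) / 2 = m * π := by
    refine ⟨2 * π * ⌈N * (x₀ + π) / (2 * π)⌉ / N - π, ?_, ?_, ⌈N * (x₀ + π) / (2 * π)⌉, ?_⟩
    · have := Int.le_ceil (N * (x₀ + π) / (2 * π))
      rw [div_le_iff₀ (by positivity)] at this
      rw [le_sub_iff_add_le, le_div_iff₀ hNR]
      linarith
    · have h1 := Int.ceil_lt_add_one (N * (x₀ + π) / (2 * π))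
      have h2 : 2 * π * (⌈N * (x₀ + π) / (2 * π)⌉ : ℝ) < N * (x₀ + π) + 2 * π := by
        have h3 : 2 * π * (⌈N * (x₀ + π) / (2 * π)⌉ : ℝ) <
            2 * π * (N * (x₀ + π) / (2 * π) + 1) := by gcongr
        have h4 : 2 * π * (N * (x₀ + π) / (2 * π) + 1) = N * (x₀ + π) + 2 * π := by
          field_simp
        linarith
      rw [sub_lt_iff_lt_add, div_lt_iff₀ hNR]
      rw [div_lt_iff₀ (by linarith)] at hN2
      nlinarith
    · field_simp
      ring
  have haπ : a < π := by nlinarith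
  have ha00 : 0 < a := by linarith
  -- the integrand
  obtain ⟨f, hf⟩ : ∃ f : ℂ → ℂ, f = fun φ => P φ * Rp N d φ * kr N φ := ⟨_, rfl⟩
  have hdN : d ≤ N := hd2.le
  have hB0 : 0 ≤ B := by
    have := hPB π 0 (by rw [abs_of_pos hπ]; nlinarith) (by rw [abs_of_pos hπ]) le_rfl (by positivity)
    exact (norm_nonneg _).trans this
  have hS : 0 ≤ Sd N d ^ 2 := sq_nonneg _
  obtain ⟨K, hK⟩ : ∃ K : ℝ, K = B * (Sd N d ^ 2 * Real.exp (ε' / 2 * N)) * (2 * Real.exp 1) :=
    ⟨_, rfl⟩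
  have hK0 : 0 ≤ K := by rw [hK]; positivity
  have hd3 : (N : ℝ) / 2 ≤ d := by nlinarith
  have hfK : ∀ x y : ℝ, x₀ ≤ |x| → |x| ≤ π → 0 ≤ y → y ≤ h →
      1 / 4 ≤ ‖Complex.cos (N * ((x + y * Complex.I) + π) / 2)‖ ^ 2 →
      ‖f (x + y * Complex.I)‖ ≤ K := by
    intro x y h1 h2 h3 h4 h5
    rw [hf]
    show ‖P (x + y * Complex.I) * Rp N d (x + y * Complex.I) * kr N (x + y * Complex.I)‖ ≤ K
    rw [norm_mul, norm_mul, hK]
    have a1 := hPB x y h1 h2 h3 (h4.trans hh.le)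
    have a2 := hN1 d hd3 hd2 x y h2 (by rw [abs_of_nonneg h3]; linarith)
    have a3 : ‖kr N (x + y * Complex.I)‖ ≤ 2 * Real.exp 1 := by
      refine (kr_le (m := 1 / 4) (by norm_num) h5 ?_).trans ?_
      · have : (x + y * Complex.I : ℂ).im = y := by simp
        rw [this, abs_of_nonneg h3]
        linarith
      · apply le_of_eq
        ring
    exact mul_le_mul (mul_le_mul a1 a2 (norm_nonneg _) hB0) a3 (norm_nonneg _) (by positivity)
  have hcosh : ∀ x : ℝ, 1 / 4 ≤ ‖Complex.cos (N * ((x + (h : ℂ) * Complex.I) + π) / 2)‖ ^ 2 := by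
    intro x
    rw [arg_eq, cos_norm_sq]
    have h1 : (N : ℝ) * h / 2 = 1 / 2 := by rw [hh]; field_simp
    rw [h1]
    have h2 : (1 / 2 : ℝ) ≤ Real.sinh (1 / 2) := Real.self_le_sinh_iff.2 (by norm_num)
    nlinarith [sq_nonneg (Real.cos (N * (x + π) / 2))]
  have hcosv : ∀ y : ℝ, 1 / 4 ≤ ‖Complex.cos (N * (((a : ℝ) : ℂ) + y * Complex.I + π) / 2)‖ ^ 2 ∧
      1 / 4 ≤ ‖Complex.cos (N * (((-a : ℝ) : ℂ) + y * Complex.I + π) / 2)‖ ^ 2 := by
    intro y
    have q : ∀ k : ℤ, Real.cos (k * π) ^ 2 = 1 := by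
      intro k
      have := Real.sin_sq_add_cos_sq (k * π)
      rw [Real.sin_int_mul_pi] at this
      linarith
    constructor
    · rw [arg_eq, cos_norm_sq, ham, q]
      nlinarith [sq_nonneg (Real.sinh (N * y / 2))]
    · rw [arg_eq, cos_norm_sq]
      have h1 : (N : ℝ) * (-a + π) / 2 = ((N - m : ℤ) : ℝ) * π := by
        push_cast
        linarith
      rw [h1, q]
      nlinarith [sq_nonneg (Real.sinh (N * y / 2))]
  have hne : ∀ z : ℂ, 1 / 4 ≤ ‖Complex.cos (N * (z + π) / 2)‖ ^ 2 →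
      Complex.cos (N * (z + π) / 2) ≠ 0 := by
    intro z hz h0
    rw [h0] at hz
    norm_num at hz
  have hfF : ∀ z : ℂ, 1 / 4 ≤ ‖Complex.cos (N * (z + π) / 2)‖ ^ 2 → f z = FE P N d z := by
    intro z hz
    rw [hf]
    exact FE_eq P hN0 hdN (hne z hz)
  have hper : ∀ z, f (z + 2 * π) = f z := by
    intro z
    rw [hf]
    simp only [hPp, Rp_per, kr_per]
  have hcont : Continuous fun x : ℝ => f (x + (h : ℂ) * Complex.I) := by
    have c2 : Continuous fun x : ℝ => ((x : ℂ) + (h : ℂ) * Complex.I : ℂ) := by fun_prop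
    rw [hf]
    exact ((hPd.continuous.comp c2).mul ((Rp_cont N d).comp c2)).mul
      (kr_cont_of c2 fun x => hne _ (hcosh x))
  have hii : ∀ u v : ℝ, IntervalIntegrable (fun x : ℝ => f (x + (h : ℂ) * Complex.I)) volume u v :=
    fun u v => hcont.intervalIntegrable u v
  have hv1 : (∫ y in (0:ℝ)..h, f (-π + y * Complex.I)) = ∫ y in (0:ℝ)..h, f (π + y * Complex.I) := by
    apply intervalIntegral.integral_congr
    intro y _
    show f (-π + y * Complex.I) = f (π + y * Complex.I)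
    rw [← hper (-π + y * Complex.I)]
    congr 1
    ring
  have hupp : upp h f = (∫ x in (-π)..(-a), f (x + (h : ℂ) * Complex.I)) +
      (∫ x in (-a)..a, f (x + (h : ℂ) * Complex.I)) +
      ∫ x in a..π, f (x + (h : ℂ) * Complex.I) := by
    unfold upp
    rw [hv1, intervalIntegral.integral_add_adjacent_intervals (hii _ _) (hii _ _),
      intervalIntegral.integral_add_adjacent_intervals (hii _ _) (hii _ _)]
    ring
  have hmid : (∫ x in (-a)..a, f (x + (h : ℂ) * Complex.I)) =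
      Complex.I * ((∫ y in (0:ℝ)..h, f (a + y * Complex.I)) -
        ∫ y in (0:ℝ)..h, f (-a + y * Complex.I)) := by
    have h1 := mid hPd hPe hε hd1 ha00.le ha1 haπ hh0.le (h := h)
    have h2 : (∫ x in (-a)..a, f (x + (h : ℂ) * Complex.I)) =
        ∫ x in (-a)..a, FE P N d (x + (h : ℂ) * Complex.I) := by
      apply intervalIntegral.integral_congr
      intro x _
      exact hfF _ (hcosh x)
    have h3 : (∫ y in (0:ℝ)..h, f (a + y * Complex.I)) =
        ∫ y in (0:ℝ)..h, FE P N d (a + y * Complex.I) := by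
      apply intervalIntegral.integral_congr
      intro y _
      exact hfF _ (hcosv y).1
    have h4 : (∫ y in (0:ℝ)..h, f (-a + y * Complex.I)) =
        ∫ y in (0:ℝ)..h, FE P N d (-a + y * Complex.I) := by
      apply intervalIntegral.integral_congr
      intro y _
      have := hfF _ (hcosv y).2
      push_cast at this
      exact this
    rw [h2, h3, h4, h1]
  have b1 : ‖∫ x in (-π)..(-a), f (x + (h : ℂ) * Complex.I)‖ ≤ K * |(-a) - (-π)| := by
    apply intervalIntegral.norm_integral_le_of_norm_le_const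
    intro x hx
    rw [Set.uIoc_of_le (by linarith)] at hx
    have hx1 : x < 0 := by linarith [hx.2]
    exact hfK x h (by rw [abs_of_neg hx1]; linarith [hx.2]) (by rw [abs_of_neg hx1]; linarith [hx.1])
      hh0.le le_rfl (hcosh x)
  have b2 : ‖∫ x in a..π, f (x + (h : ℂ) * Complex.I)‖ ≤ K * |π - a| := by
    apply intervalIntegral.norm_integral_le_of_norm_le_const
    intro x hx
    rw [Set.uIoc_of_le (by linarith)] at hx
    have hx1 : 0 < x := by linarith [hx.1]
    exact hfK x h (by rw [abs_of_pos hx1]; linarith [hx.1]) (by rw [abs_of_pos hx1]; linarith [hx.2])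
      hh0.le le_rfl (hcosh x)
  have b3 : ‖∫ y in (0:ℝ)..h, f (a + y * Complex.I)‖ ≤ K * |h - 0| := by
    apply intervalIntegral.norm_integral_le_of_norm_le_const
    intro y hy
    rw [Set.uIoc_of_le hh0.le] at hy
    exact hfK a y (by rw [abs_of_pos ha00]; linarith) (by rw [abs_of_pos ha00]; linarith)
      hy.1.le hy.2 (hcosv y).1
  have b4 : ‖∫ y in (0:ℝ)..h, f (-a + y * Complex.I)‖ ≤ K * |h - 0| := by
    apply intervalIntegral.norm_integral_le_of_norm_le_const
    intro y hy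
    rw [Set.uIoc_of_le hh0.le] at hy
    have := hfK (-a) y (by rw [abs_neg, abs_of_pos ha00]; linarith)
      (by rw [abs_neg, abs_of_pos ha00]; linarith) hy.1.le hy.2 (hcosv y).2
    push_cast at this
    exact this
  rw [← hh, ← hf, hupp, hmid]
  refine (norm_add_le _ _).trans ?_
  refine (add_le_add_left (norm_add_le _ _) _).trans ?_
  rw [norm_mul, Complex.norm_I, one_mul]
  have b5 := norm_sub_le (∫ y in (0:ℝ)..h, f (a + y * Complex.I))
    (∫ y in (0:ℝ)..h, f (-a + y * Complex.I))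
  rw [sub_zero, abs_of_pos hh0] at b3 b4
  rw [abs_of_pos (by linarith)] at b1 b2
  have b6 : K * (2 * π + 2) ≤ B * (Sd N d ^ 2 * Real.exp (ε' * N)) := by
    have c1 : Real.exp (ε' * N) = Real.exp (ε' / 2 * N) * Real.exp (ε' / 2 * N) := by
      rw [← Real.exp_add]
      congr 1
      ring
    rw [hK, c1]
    have c2 : 2 * Real.exp 1 * (2 * π + 2) ≤ Real.exp (ε' / 2 * N) := by
      have h1 := Real.exp_one_lt_d9
      have h2 : 2 * Real.exp 1 * (2 * π + 2) ≤ 2 * 2.72 * (2 * 3.15 + 2) := by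
        gcongr
        linarith
      refine h2.trans (le_trans ?_ hN4)
      norm_num
    have c3 : 0 ≤ B * (Sd N d ^ 2 * Real.exp (ε' / 2 * N)) := by positivity
    calc B * (Sd N d ^ 2 * Real.exp (ε' / 2 * N)) * (2 * Real.exp 1) * (2 * π + 2)
        = B * (Sd N d ^ 2 * Real.exp (ε' / 2 * N)) * (2 * Real.exp 1 * (2 * π + 2)) := by ring
      _ ≤ B * (Sd N d ^ 2 * Real.exp (ε' / 2 * N)) * Real.exp (ε' / 2 * N) :=
          mul_le_mul_of_nonneg_left c2 c3
      _ = B * (Sd N d ^ 2 * (Real.exp (ε' / 2 * N) * Real.exp (ε' / 2 * N))) := by ring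
  have b7 : K * h ≤ K := by
    calc K * h ≤ K * 1 := mul_le_mul_of_nonneg_left hh1 hK0
      _ = K := mul_one K
  have b8 : K * (-a - -π) + K * (π - a) + 2 * K ≤ K * (2 * π + 2) := by
    have : 0 ≤ K * a := mul_nonneg hK0 ha00.le
    linarith
  linarith

end Pool.Agent.TH653.Z
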